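import Pool.Agent.Q66.Ab6

set_option autoImplicit false

namespace Pool.Agent.Results.MP_a78abf_an.EntropyPlateau

open Q66.Ab

/-- For `b ∈ [0,1/2]` and `-1 ≤ a ≤ -1/(b+1)` the parameters `(a,b)` and `(-1,b)` lie in `𝒫` and
the maps have the same topological entropy `s`: the growth rates of the numbers of maximal
intervals of monotonicity of the iterates exist and are equal, and so are the growth rates of the
numbers of maximal intervals of continuity and monotonicity (for both readings `e = ±1` of the
value `∞` at the point `0`). -/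
theorem result (e a b : ℝ) (he : e = 1 ∨ e = -1) (hb0 : 0 ≤ b) (hb : b ≤ 1 / 2) (ha : -1 ≤ a)
    (hab : a ≤ -(1 / (b + 1))) :
    InP a b ∧ InP (-1) b ∧
    ∃ s : ℝ, HasTopEntropy (ftil e a b) s ∧ HasTopEntropy (ftil e (-1) b) s ∧
      HasContLapEntropy e a b s ∧ HasContLapEntropy e (-1) b s := by
  have h2 : a ≤ -1 / (b + 1) := by rw [neg_div]; exact hab
  have h := plateau_inP hb0 hb ha h2
  have h' : InP (-1) b := plateau_inP hb0 hb (le_refl _) (by
    rw [le_div_iff₀ (by linarith)]; linarith)
  have heq := plateau_ent hb0 hb ha h2 h h'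
  refine ⟨h, h', _, hasTopEntropy h he, ?_, hasContLapEntropy h, ?_⟩
  · rw [heq]; exact hasTopEntropy h' he
  · rw [heq]; exact hasContLapEntropy h'

end Pool.Agent.Results.MP_a78abf_an.EntropyPlateau
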